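import Mathlib

/-!
The self-referencing LZ77 size of a suffix is `O(z^4)`.
-/

namespace Pool.Agent.Results.MP_37e11d_lc.Suffix

open Classical

variable {α : Type}

/-- The length-`l` prefix of `S[u..]` (positions from `0`) has an occurrence starting at some
`j < u`; the occurrence may overlap it. -/
def Occ (S : List α) (u l : ℕ) : Prop := ∃ j < u, ∀ t < l, S[j + t]? = S[u + t]?

/-- Length of the factor starting at `u`: the shortest nonempty prefix of `S[u..]` without an
earlier occurrence, or all of `S[u..]` if there is none. -/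
noncomputable def flen (S : List α) (u : ℕ) : ℕ :=
  if h : ∃ l, 0 < l ∧ u + l ≤ S.length ∧ ¬ Occ S u l then Nat.find h else S.length - u

/-- Start of the next factor. -/
noncomputable def nxt (S : List α) (u : ℕ) : ℕ := u + flen S u

/-- Number of factors: the `k`-th factor starts at `nxt^[k] 0`; `zs` is the number of steps
needed to reach the end of `S`. -/
noncomputable def zs (S : List α) : ℕ := sInf {z | S.length ≤ (nxt S)^[z] 0}

lemma le_nxt (S : List α) (u : ℕ) : u ≤ nxt S u := Nat.le_add_right _ _

lemma lt_nxt (S : List α) {u : ℕ} (hu : u < S.length) : u < nxt S u := by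
  unfold nxt flen
  split_ifs with h
  · have := (Nat.find_spec h).1
    omega
  · omega

lemma nxt_le (S : List α) {u : ℕ} (hu : u ≤ S.length) : nxt S u ≤ S.length := by
  unfold nxt flen
  split_ifs with h
  · exact (Nat.find_spec h).2.1
  · omega

lemma Occ.mono {S : List α} {u l l' : ℕ} (h : Occ S u l) (hl : l' ≤ l) : Occ S u l' := by
  obtain ⟨j, hj, h⟩ := h
  exact ⟨j, hj, fun t ht => h t (by omega)⟩

lemma nxt_ge {S : List α} {u l : ℕ} (h : Occ S u l) (hl : u + l ≤ S.length) :
    u + l ≤ nxt S u := by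
  unfold nxt flen
  split_ifs with h'
  · by_contra hc
    exact (Nat.find_spec h').2.2 (h.mono (by omega))
  · omega

lemma occ_nxt {S : List α} {u : ℕ} (hu : u ≤ S.length) (h : u + 1 < nxt S u) :
    Occ S u (nxt S u - 1 - u) := by
  have hle := nxt_le S hu
  by_contra hc
  have hex : ∃ l, 0 < l ∧ u + l ≤ S.length ∧ ¬ Occ S u l :=
    ⟨nxt S u - 1 - u, by omega, by omega, hc⟩
  have h1 : Nat.find hex ≤ nxt S u - 1 - u := Nat.find_min' hex ⟨by omega, by omega, hc⟩
  have h2 : nxt S u = u + Nat.find hex := by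
    unfold nxt flen
    rw [dif_pos hex]
  omega

lemma le_iter (S : List α) (m u : ℕ) : u ≤ (nxt S)^[m] u := by
  induction m with
  | zero => exact le_rfl
  | succ m ih => rw [Function.iterate_succ_apply']; exact ih.trans (le_nxt _ _)

lemma iter_le (S : List α) (m : ℕ) : (nxt S)^[m] 0 ≤ S.length := by
  induction m with
  | zero => exact Nat.zero_le _
  | succ m ih => rw [Function.iterate_succ_apply']; exact nxt_le S ih

lemma iter_ge (S : List α) (m : ℕ) : min m S.length ≤ (nxt S)^[m] 0 := by
  induction m with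
  | zero => simp
  | succ m ih =>
    rw [Function.iterate_succ_apply']
    by_cases h : (nxt S)^[m] 0 < S.length
    · have := lt_nxt S h
      omega
    · have := le_nxt S ((nxt S)^[m] 0)
      omega

lemma zs_spec (S : List α) : (nxt S)^[zs S] 0 = S.length := by
  apply le_antisymm (iter_le _ _)
  exact Nat.sInf_mem (s := {z | S.length ≤ (nxt S)^[z] 0})
    ⟨S.length, by simpa using iter_ge S S.length⟩

/-- greedy parsing of `S[i..]` covers `[q,q')` with `m` factors -/
def R (S : List α) (i q q' m : ℕ) : Prop :=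
  ∀ u, q ≤ i + u → q' ≤ i + (nxt (S.drop i))^[m] u

lemma R.trans {S : List α} {i a b c m m' : ℕ} (h : R S i a b m) (h' : R S i b c m') :
    R S i a c (m + m') := by
  intro u hu
  rw [add_comm m, Function.iterate_add_apply]
  exact h' _ (h u hu)

lemma R.mono {S : List α} {i a b m m' : ℕ} (h : R S i a b m) (hm : m ≤ m') : R S i a b m' := by
  intro u hu
  obtain ⟨d, rfl⟩ := Nat.exists_eq_add_of_le hm
  rw [add_comm m, Function.iterate_add_apply]
  exact (h u hu).trans (Nat.add_le_add_left (le_iter _ _ _) _)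

lemma R.refl (S : List α) (i a : ℕ) : R S i a a 0 := fun _ hu => hu

lemma R.lit (S : List α) {i q : ℕ} (hq : q < S.length) : R S i q (q + 1) 1 := by
  intro u hu
  show q + 1 ≤ i + nxt (S.drop i) u
  rcases hu.lt_or_eq with h | h
  · have := le_nxt (S.drop i) u
    omega
  · have := lt_nxt (S.drop i) (u := u) (by rw [List.length_drop]; omega)
    omega

def Mt (S : List α) (q x L : ℕ) : Prop := ∀ t < L, S[q + t]? = S[x + t]?

lemma R.copy {S : List α} {i q j L : ℕ} (hi : i ≤ j) (hj : j < q) (h : Mt S q j L)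
    (hL : q + L ≤ S.length) : R S i q (q + L) 1 := by
  intro u hu
  show q + L ≤ i + nxt (S.drop i) u
  by_cases hc : q + L ≤ i + u
  · have := le_nxt (S.drop i) u
    omega
  · have h1 : Occ (S.drop i) u (q + L - (i + u)) := by
      refine ⟨j - i + (i + u - q), by omega, fun t ht => ?_⟩
      rw [List.getElem?_drop, List.getElem?_drop]
      have := h (i + u - q + t) (by omega)
      rw [show i + (u + t) = q + (i + u - q + t) by omega, this]
      congr 1
      omega
    have := nxt_ge h1 (by rw [List.length_drop]; omega)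
    omega

def psi (s b y : ℕ) : ℕ := s + (y - s) % (b - s)

/-- the closure property of the cut-point set -/
def Good (S : List α) (C : Finset ℕ) : Prop :=
  ∀ x ∈ C, x < S.length → x + 1 ∈ C ∨ ∃ b e s, s < b ∧ b ≤ x ∧ x < e ∧ b ∈ C ∧ e ∈ C ∧ s ∈ C ∧
    (∀ t, b ≤ t → t < e → S[t]? = S[t - (b - s)]?) ∧ ∀ y ∈ C, x ≤ y → y ≤ e → psi s b y ∈ C

lemma per {S : List α} {b e s : ℕ} (hs : s < b)
    (h : ∀ t, b ≤ t → t < e → S[t]? = S[t - (b - s)]?) :
    ∀ t, s ≤ t → t < e → S[t]? = S[psi s b t]? := by
  intro t
  induction t using Nat.strong_induction_on with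
  | _ t ih =>
    intro h1 h2
    by_cases hb : t < b
    · unfold psi
      rw [Nat.mod_eq_of_lt (by omega)]
      congr 1
      omega
    · rw [h t (by omega) h2, ih (t - (b - s)) (by omega) (by omega) (by omega)]
      unfold psi
      rw [show t - s = (t - (b - s) - s) + (b - s) by omega, Nat.add_mod_right]

def Done (S : List α) (i q : ℕ) (D : Finset (ℕ × ℕ)) : Prop :=
  ∀ p ∈ D, ∃ j, i ≤ j ∧ j + (p.2 - p.1) ≤ q ∧ Mt S j p.1 (p.2 - p.1)

lemma Done.mono {S : List α} {i q q' : ℕ} {D : Finset (ℕ × ℕ)} (h : Done S i q D)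
    (hq : q ≤ q') : Done S i q' D := by
  intro p hp
  obtain ⟨j, h1, h2, h3⟩ := h p hp
  exact ⟨j, h1, h2.trans hq, h3⟩

def mu (n x y : ℕ) : ℕ := y * (n + 1) + (y - x)

lemma mu_lt {n x y x' y' : ℕ} (h : y' < y) (hy : y ≤ n) : mu n x' y' < mu n x y := by
  unfold mu
  have : (y' + 1) * (n + 1) ≤ y * (n + 1) := Nat.mul_le_mul_right _ h
  have h2 : (y' + 1) * (n + 1) = y' * (n + 1) + (n + 1) := by ring
  omega

/-- the statement proved by induction -/
def P (S : List α) (i : ℕ) (C : Finset ℕ) (x y : ℕ) : Prop :=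
  ∀ q D, i ≤ q → q + (y - x) ≤ S.length → Mt S q x (y - x) → Done S i q D →
    ∃ D' m, D ⊆ D' ∧ (∀ p ∈ D', p ∈ D ∨ (p ∈ C ×ˢ C ∧ mu S.length p.1 p.2 ≤ mu S.length x y)) ∧
      Done S i (q + (y - x)) D' ∧ R S i q (q + (y - x)) m ∧ m + 2 * D.card ≤ 1 + 2 * D'.card

lemma combine {S : List α} {i : ℕ} {C : Finset ℕ} {x y x1 y1 x2 y2 : ℕ} (hx : x ∈ C) (hy : y ∈ C)
    (h1 : P S i C x1 y1) (h2 : P S i C x2 y2)
    (m1 : mu S.length x1 y1 < mu S.length x y) (m2 : mu S.length x2 y2 < mu S.length x y)
    (hl : (y1 - x1) + (y2 - x2) ≤ y - x)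
    (e1 : Mt S x x1 (y1 - x1)) (e2 : Mt S (x + (y1 - x1)) x2 (y2 - x2))
    (e3 : (y1 - x1) + (y2 - x2) = y - x ∨ ∃ p, 0 < p ∧ p ≤ (y1 - x1) + (y2 - x2) ∧
      ∀ t, p ≤ t → t < y - x → S[x + t]? = S[x + (t - p)]?)
    (hxy : x < y) : P S i C x y := by
  intro q D hq hn hm hD
  by_cases hin : (x, y) ∈ D
  · obtain ⟨j, j1, j2, j3⟩ := hD _ hin
    simp only at j2 j3
    refine ⟨D, 1, subset_rfl, fun p hp => Or.inl hp, hD.mono (by omega),
      R.copy j1 (by omega) (fun t ht => ?_) hn, by omega⟩
    rw [hm t ht, j3 t ht]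
  obtain ⟨D1, k1, a1, a2, a3, a4, a5⟩ := h1 q D hq (by omega)
    (fun t ht => by rw [hm t (by omega), e1 t ht]) hD
  obtain ⟨D2, k2, b1, b2, b3, b4, b5⟩ := h2 (q + (y1 - x1)) D1 (by omega) (by omega)
    (fun t ht => by
      rw [add_assoc, hm _ (by omega), ← e2 t ht, add_assoc]) a3
  have hnot : (x, y) ∉ D2 := by
    intro h
    rcases b2 _ h with h | h
    · rcases a2 _ h with h | h
      · exact hin h
      · have := h.2
        simp only at this
        omega
    · have := h.2
      simp only at this
      omega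
  have hR : R S i (q + (y1 - x1) + (y2 - x2)) (q + (y - x)) 1 := by
    rcases e3 with e3 | ⟨p, p0, p1, p2⟩
    · rw [add_assoc, e3]
      exact (R.refl _ _ _).mono (by omega)
    · have := R.copy (S := S) (i := i) (q := q + (y1 - x1) + (y2 - x2))
        (j := q + (y1 - x1) + (y2 - x2) - p) (L := (y - x) - ((y1 - x1) + (y2 - x2)))
        (by omega) (by omega) (fun t ht => ?_) (by omega)
      · convert this using 1
        omega
      · have f1 := hm ((y1 - x1) + (y2 - x2) + t) (by omega)
        have f2 := hm ((y1 - x1) + (y2 - x2) + t - p) (by omega)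
        have f3 := p2 ((y1 - x1) + (y2 - x2) + t) (by omega) (by omega)
        rw [show q + (y1 - x1) + (y2 - x2) + t = q + ((y1 - x1) + (y2 - x2) + t) by omega, f1, f3,
          ← f2]
        congr 1
        omega
  refine ⟨insert (x, y) D2, k1 + k2 + 1, (a1.trans b1).trans (Finset.subset_insert _ _), ?_, ?_,
    (a4.trans b4).trans hR, ?_⟩
  · intro p hp
    rcases Finset.mem_insert.1 hp with rfl | hp
    · exact Or.inr ⟨Finset.mem_product.2 ⟨hx, hy⟩, le_rfl⟩
    · rcases b2 _ hp with h | h
      · rcases a2 _ h with h | h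
        · exact Or.inl h
        · exact Or.inr ⟨h.1, by omega⟩
      · exact Or.inr ⟨h.1, by omega⟩
  · intro p hp
    rcases Finset.mem_insert.1 hp with rfl | hp
    · exact ⟨q, hq, le_rfl, hm⟩
    · exact (b3.mono (by omega)) p hp
  · rw [Finset.card_insert_of_notMem hnot]
    omega

lemma main {S : List α} {i : ℕ} {C : Finset ℕ} (hC : Good S C) :
    ∀ (k x y : ℕ), mu S.length x y = k → x ∈ C → y ∈ C → x ≤ y → y ≤ S.length → P S i C x y := by
  intro k
  induction k using Nat.strong_induction_on with
  | _ k ih =>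
  intro x y hk hx hy hxy hyn
  have IH : ∀ x' y', mu S.length x' y' < mu S.length x y → x' ∈ C → y' ∈ C → x' ≤ y' →
      y' ≤ S.length → P S i C x' y' := fun x' y' h => ih _ (hk ▸ h) x' y' rfl
  rcases hxy.eq_or_lt with rfl | hlt
  · intro q D hq hn hm hD
    exact ⟨D, 0, subset_rfl, fun p hp => Or.inl hp, hD.mono (by omega),
      by rw [Nat.sub_self]; exact R.refl _ _ _, by omega⟩
  by_cases h1 : y = x + 1
  · subst h1
    intro q D hq hn hm hD
    rw [Nat.add_sub_cancel_left] at hn ⊢
    exact ⟨D, 1, subset_rfl, fun p hp => Or.inl hp, hD.mono (by omega), R.lit S (by omega),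
      by omega⟩
  have split : ∀ e ∈ C, x < e → e < y → P S i C x y := by
    intro e he h1 h2
    have m1 : mu S.length x e < mu S.length x y := mu_lt h2 hyn
    have m2 : mu S.length e y < mu S.length x y := by unfold mu; omega
    refine combine hx hy (IH x e m1 hx he h1.le (by omega)) (IH e y m2 he hy h2.le hyn) m1 m2
      (by omega) (fun _ _ => rfl) (fun t _ => ?_) (Or.inl (by omega)) hlt
    congr 1
    omega
  rcases hC x hx (by omega) with h | ⟨b, e, s, hs, hb, he, bC, eC, sC, hper, hcl⟩
  · exact split _ h (by omega) (by omega)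
  by_cases h2 : e < y
  · exact split e eC he h2
  have hp := per hs hper
  have x'C := hcl x hx le_rfl he.le
  have y'C := hcl y hy hxy (by omega)
  have hr : (x - s) % (b - s) < b - s := Nat.mod_lt _ (by omega)
  have key : ∀ t, psi s b (x + t) = s + ((x - s) % (b - s) + t) % (b - s) := by
    intro t
    unfold psi
    rw [show x + t - s = (x - s) + t by omega, Nat.mod_add_mod]
  have hxe : psi s b x = s + (x - s) % (b - s) := rfl
  have hye : psi s b y = s + ((x - s) % (b - s) + (y - x)) % (b - s) := by
    rw [← key]; congr 1; omega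
  set r := (x - s) % (b - s) with hrdef
  have e3 : ∀ t, b - s ≤ t → t < y - x → S[x + t]? = S[x + (t - (b - s))]? := by
    intro t t1 t2
    rw [hper (x + t) (by omega) (by omega)]
    congr 1
    omega
  have e1 : ∀ L, L ≤ y - x → r + L ≤ b - s → Mt S x (s + r) L := by
    intro L l1 l2 t ht
    rw [hp (x + t) (by omega) (by omega), key, Nat.mod_eq_of_lt (by omega), add_assoc]
  have e2 : ∀ L, (b - s - r) + L ≤ y - x → L ≤ b - s → Mt S (x + (b - s - r)) s L := by
    intro L l1 l2 t ht
    rw [add_assoc, hp _ (by omega) (by omega), key,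
      show r + (b - s - r + t) = t + (b - s) by omega, Nat.add_mod_right,
      Nat.mod_eq_of_lt (by omega)]
  rw [hxe] at x'C
  have mm : ∀ x' y', y' ≤ b → mu S.length x' y' < mu S.length x y := fun x' y' h =>
    mu_lt (by omega) hyn
  by_cases c1 : r + (y - x) < b - s
  · rw [hye, Nat.mod_eq_of_lt c1] at y'C
    refine combine hx hy (IH (s + r) _ (mm _ _ (by omega)) x'C y'C (by omega) (by omega))
      (IH s s (mm _ _ (by omega)) sC sC le_rfl (by omega)) (mm _ _ (by omega)) (mm _ _ (by omega))
      (by omega) (e1 _ (by omega) (by omega)) (fun t ht => by omega) (Or.inl (by omega)) hlt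
  have eb : b - (s + r) = b - s - r := by omega
  by_cases c2 : r + (y - x) < 2 * (b - s)
  · rw [hye, show r + (y - x) = (r + (y - x) - (b - s)) + (b - s) by omega, Nat.add_mod_right,
      Nat.mod_eq_of_lt (by omega)] at y'C
    refine combine hx hy (IH (s + r) b (mm _ _ le_rfl) x'C bC (by omega) (by omega))
      (IH s _ (mm _ _ (by omega)) sC y'C (by omega) (by omega)) (mm _ _ le_rfl) (mm _ _ (by omega))
      (by omega) (e1 _ (by omega) (by omega)) ?_ (Or.inl (by omega)) hlt
    rw [eb]
    exact e2 _ (by omega) (by omega)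
  · refine combine hx hy (IH (s + r) b (mm _ _ le_rfl) x'C bC (by omega) (by omega))
      (IH s b (mm _ _ le_rfl) sC bC (by omega) (by omega)) (mm _ _ le_rfl) (mm _ _ le_rfl)
      (by omega) (e1 _ (by omega) (by omega)) ?_
      (Or.inr ⟨b - s, by omega, by omega, e3⟩) hlt
    rw [eb]
    exact e2 _ (by omega) (by omega)

lemma stab {f r : ℕ → ℕ} (h : ∀ x, f x = x ∨ r (f x) < r x) :
    ∀ k x, r x ≤ k → f (f^[k] x) = f^[k] x := by
  intro k
  induction k with
  | zero =>
    intro x hx
    rcases h x with h | h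
    · exact h
    · omega
  | succ k ih =>
    intro x hx
    rcases h x with h | h
    · rw [Function.iterate_fixed h, h]
    · rw [Function.iterate_succ_apply]
      exact ih _ (by omega)

lemma exists_good (S : List α) (i : ℕ) :
    ∃ C : Finset ℕ, Good S C ∧ i ∈ C ∧ S.length ∈ C ∧ C.card ≤ (4 * zs S + 2) * (zs S + 1) := by
  set z := zs S with hz
  let b : ℕ → ℕ := fun j => (nxt S)^[j] 0
  have bsucc : ∀ j, b (j + 1) = nxt S (b j) := fun j => Function.iterate_succ_apply' _ _ _
  have bmono : Monotone b := monotone_nat_of_le_succ fun j => by rw [bsucc]; exact le_nxt _ _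
  have bz : b z = S.length := zs_spec S
  let e : ℕ → ℕ := fun j => b (j + 1) - 1
  have hsrc : ∀ j, ∃ s, b j < e j → s < b j ∧ ∀ t < e j - b j, S[s + t]? = S[b j + t]? := by
    intro j
    by_cases h : b j < e j
    · have h' : b j + 1 < nxt S (b j) := by
        have : e j = nxt S (b j) - 1 := by rw [← bsucc]
        omega
      obtain ⟨s, s1, s2⟩ := occ_nxt (iter_le S j) h'
      refine ⟨s, fun _ => ⟨s1, fun t ht => s2 t ?_⟩⟩
      have : e j = nxt S (b j) - 1 := by rw [← bsucc]
      show t < nxt S (b j) - 1 - b j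
      omega
    · exact ⟨0, fun h' => absurd h' h⟩
  choose s hs using hsrc
  have uniq : ∀ j k x, b j ≤ x → x < e j → b k ≤ x → x < e k → j = k := by
    intro j k x j1 j2 k1 k2
    have ej : e j = b (j + 1) - 1 := rfl
    have ek : e k = b (k + 1) - 1 := rfl
    rcases lt_trichotomy j k with h | h | h
    · have := bmono (show j + 1 ≤ k from h)
      omega
    · exact h
    · have := bmono (show k + 1 ≤ j from h)
      omega
  let f : ℕ → ℕ := fun x =>
    if h : ∃ j, j < z ∧ b j ≤ x ∧ x < e j then psi (s h.choose) (b h.choose) x else x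
  have hf : ∀ j x, j < z → b j ≤ x → x < e j → f x = psi (s j) (b j) x := by
    intro j x j0 j1 j2
    have hex : ∃ j, j < z ∧ b j ≤ x ∧ x < e j := ⟨j, j0, j1, j2⟩
    have := uniq _ _ x hex.choose_spec.2.1 hex.choose_spec.2.2 j1 j2
    show dite _ _ _ = _
    rw [dif_pos hex, this]
  let r : ℕ → ℕ := fun x => ((Finset.range z).filter fun j => b j ≤ x).card
  have hr : ∀ x, r x ≤ z := fun x => (Finset.card_filter_le _ _).trans (by simp)
  have hdec : ∀ x, f x = x ∨ r (f x) < r x := by
    intro x
    by_cases hex : ∃ j, j < z ∧ b j ≤ x ∧ x < e j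
    · right
      obtain ⟨j, j0, j1, j2⟩ := hex
      have h1 := (hs j (by omega)).1
      have h2 : f x < b j := by
        rw [hf j x j0 j1 j2]
        unfold psi
        have := Nat.mod_lt (x - s j) (show 0 < b j - s j by omega)
        omega
      apply Finset.card_lt_card
      rw [Finset.ssubset_iff_of_subset]
      · refine ⟨j, by simp [j0, j1], ?_⟩
        simp only [Finset.mem_filter, not_and, not_le]
        exact fun _ => h2
      · intro k hk
        simp only [Finset.mem_filter] at hk ⊢
        exact ⟨hk.1, by omega⟩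
    · left
      show dite _ _ _ = _
      rw [dif_neg hex]
  let I : Finset ℕ := insert i ((Finset.range (z + 1)).image b ∪ ((Finset.range z).image e ∪
    ((Finset.range z).image s ∪ (Finset.range z).image fun j => psi (s j) (b j) (e j))))
  have hI : I.card ≤ 4 * z + 2 := by
    refine (Finset.card_insert_le _ _).trans ?_
    have a1 := Finset.card_image_le (s := Finset.range (z + 1)) (f := b)
    have a2 := Finset.card_image_le (s := Finset.range z) (f := e)
    have a3 := Finset.card_image_le (s := Finset.range z) (f := s)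
    have a4 := Finset.card_image_le (s := Finset.range z) (f := fun j => psi (s j) (b j) (e j))
    have b1 := Finset.card_union_le ((Finset.range z).image s)
      ((Finset.range z).image fun j => psi (s j) (b j) (e j))
    have b2 := Finset.card_union_le ((Finset.range z).image e) ((Finset.range z).image s ∪
      (Finset.range z).image fun j => psi (s j) (b j) (e j))
    have b3 := Finset.card_union_le ((Finset.range (z + 1)).image b) ((Finset.range z).image e ∪
      ((Finset.range z).image s ∪ (Finset.range z).image fun j => psi (s j) (b j) (e j)))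
    simp only [Finset.card_range] at a1 a2 a3 a4
    omega
  let C : Finset ℕ := (I ×ˢ Finset.range (z + 1)).image fun p => f^[p.2] p.1
  have IC : ∀ x ∈ I, x ∈ C := fun x hx =>
    Finset.mem_image.2 ⟨(x, 0), Finset.mem_product.2 ⟨hx, by simp⟩, rfl⟩
  have fC : ∀ x ∈ C, f x ∈ C := by
    intro x hx
    obtain ⟨⟨a, k⟩, hak, rfl⟩ := Finset.mem_image.1 hx
    obtain ⟨ha, hk⟩ := Finset.mem_product.1 hak
    simp only [Finset.mem_range] at ha hk ⊢
    by_cases hkz : k = z
    · rw [hkz, stab hdec z a (hr a), ← hkz]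
      exact hx
    · exact Finset.mem_image.2 ⟨(a, k + 1), Finset.mem_product.2 ⟨ha, by simp; omega⟩,
        Function.iterate_succ_apply' _ _ _⟩
  have bC : ∀ j ≤ z, b j ∈ C := fun j hj => IC _ (by
    simp only [I, Finset.mem_insert, Finset.mem_union, Finset.mem_image, Finset.mem_range]
    exact Or.inr (Or.inl ⟨j, by omega, rfl⟩))
  have eC : ∀ j < z, e j ∈ C := fun j hj => IC _ (by
    simp only [I, Finset.mem_insert, Finset.mem_union, Finset.mem_image, Finset.mem_range]
    exact Or.inr (Or.inr (Or.inl ⟨j, hj, rfl⟩)))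
  have sC : ∀ j < z, s j ∈ C := fun j hj => IC _ (by
    simp only [I, Finset.mem_insert, Finset.mem_union, Finset.mem_image, Finset.mem_range]
    exact Or.inr (Or.inr (Or.inr (Or.inl ⟨j, hj, rfl⟩))))
  have pC : ∀ j < z, psi (s j) (b j) (e j) ∈ C := fun j hj => IC _ (by
    simp only [I, Finset.mem_insert, Finset.mem_union, Finset.mem_image, Finset.mem_range]
    exact Or.inr (Or.inr (Or.inr (Or.inr ⟨j, hj, rfl⟩))))
  refine ⟨C, ?_, IC _ (Finset.mem_insert_self _ _), bz ▸ bC z le_rfl, ?_⟩
  · intro x hx hxn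
    have hex : ∃ j, x < b (j + 1) := by
      refine ⟨z, ?_⟩
      have := bmono (Nat.le_succ z)
      simp only [Nat.succ_eq_add_one] at this
      omega
    obtain ⟨j, j1, j2, j3⟩ : ∃ j, j < z ∧ b j ≤ x ∧ x < b (j + 1) := by
      refine ⟨Nat.find hex, ?_, ?_, Nat.find_spec hex⟩
      · by_contra hc
        rcases Nat.eq_zero_or_pos z with h0 | h0
        · have : b z = 0 := by rw [h0]; rfl
          omega
        · have := Nat.find_min hex (m := z - 1) (by omega)
          rw [show z - 1 + 1 = z by omega] at this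
          omega
      · rcases Nat.eq_zero_or_pos (Nat.find hex) with h0 | h0
        · rw [h0]; exact Nat.zero_le _
        · have := Nat.find_min hex (m := Nat.find hex - 1) (by omega)
          rw [show Nat.find hex - 1 + 1 = Nat.find hex by omega] at this
          omega
    have ej : e j = b (j + 1) - 1 := rfl
    by_cases hl : x + 1 = b (j + 1)
    · left
      rw [hl]
      exact bC _ j1
    · right
      have h1 := hs j (by omega)
      refine ⟨b j, e j, s j, h1.1, j2, by omega, bC j j1.le, eC j j1, sC j j1, fun t t1 t2 => ?_,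
        fun y hy y1 y2 => ?_⟩
      · have := h1.2 (t - b j) (by omega)
        rw [show b j + (t - b j) = t by omega] at this
        rw [← this]
        congr 1
        have := h1.1
        omega
      · rcases y2.eq_or_lt with rfl | y2
        · exact pC j j1
        · rw [← hf j y j1 (by omega) y2]
          exact fC y hy
  · refine Finset.card_image_le.trans ?_
    rw [Finset.card_product, Finset.card_range]
    exact Nat.mul_le_mul_right _ hI

theorem bound (S : List α) (i : ℕ) (hi : i < S.length) : zs (S.drop i) ≤ 289 * zs S ^ 4 := by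
  obtain ⟨C, hC, iC, nC, hcard⟩ := exists_good S i
  obtain ⟨D, m, -, h2, -, h4, h5⟩ := main (i := i) hC _ i S.length rfl iC nC hi.le le_rfl i ∅
    le_rfl (by omega) (fun _ _ => rfl) (fun p hp => absurd hp (Finset.notMem_empty p))
  have hD : D.card ≤ C.card * C.card := by
    rw [← Finset.card_product]
    refine Finset.card_le_card fun p hp => ?_
    rcases h2 p hp with h | h
    · exact absurd h (Finset.notMem_empty p)
    · exact h.1
  have hz : 1 ≤ zs S := by
    by_contra h
    have h0 : zs S = 0 := by omega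
    have := zs_spec S
    rw [h0] at this
    simp only [Function.iterate_zero, id] at this
    omega
  have h6 : zs (S.drop i) ≤ m := by
    apply Nat.sInf_le
    have := h4 0 le_rfl
    show (S.drop i).length ≤ _
    rw [List.length_drop]
    omega
  have h7 : C.card ≤ 12 * zs S ^ 2 := by
    refine hcard.trans ?_
    nlinarith
  have h8 : C.card * C.card ≤ 144 * zs S ^ 4 := by
    calc C.card * C.card ≤ (12 * zs S ^ 2) * (12 * zs S ^ 2) := Nat.mul_le_mul h7 h7
      _ = 144 * zs S ^ 4 := by ring
  have h9 : 1 ≤ zs S ^ 4 := Nat.one_le_pow _ _ hz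
  simp only [Finset.card_empty] at h5
  omega

/-- `zs(S[i..]) ≤ 289 zs(S)^4` for every string and every nonempty suffix; in particular the
bound `c zs(S)^c` holds with `c = 289`. -/
theorem result :
    (∀ (α : Type) (S : List α) (i : ℕ), i < S.length → zs (S.drop i) ≤ 289 * zs S ^ 4) ∧
    ∃ c : ℕ, 1 ≤ c ∧ ∀ (α : Type) (S : List α) (i : ℕ), i < S.length →
      zs (S.drop i) ≤ c * zs S ^ c := by
  refine ⟨fun _ S i hi => bound S i hi, 289, by norm_num, fun _ S i hi => (bound S i hi).trans ?_⟩
  rcases Nat.eq_zero_or_pos (zs S) with h | h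
  · rw [h, zero_pow (by decide), zero_pow (by decide)]
  · exact Nat.mul_le_mul_left _ (Nat.pow_le_pow_right h (by norm_num))

end Pool.Agent.Results.MP_37e11d_lc.Suffix
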